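import Mathlib

/-!
`p`-regular parts of elementary symmetric partitions (full answer to Q1).
-/

namespace Pool.Agent.Results.MP_e3b57e_co.RegularParts

/-- The multiset `ε_k(λ)` of all products `λ_{i_1} ⋯ λ_{i_k}`, `i_1 < ⋯ < i_k`. -/
def eps (k : ℕ) (s : Multiset ℕ) : Multiset ℕ := (s.powersetCard k).map Multiset.prod

/-- The image set `IP_k(n)` of `ε_k` on the partitions of `n` of length at least `k`. -/
def IP (k n : ℕ) : Finset (Multiset ℕ) :=
  ((Finset.univ : Finset n.Partition).filter (fun l => k ≤ Multiset.card l.parts)).image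
    (fun l => eps k l.parts)

/-- `r_{d,k}(n)`: the number of `d`-regular members of `IP_k(n)`. -/
def r (d k n : ℕ) : ℕ := ((IP k n).filter (fun μ => ∀ x ∈ μ, ¬ d ∣ x)).card

/-- Power sum. -/
def ps (t : ℕ) (s : Multiset ℕ) : ℕ := (s.map (fun x => x ^ t)).sum

theorem sq_ps (t : ℕ) (s : Multiset ℕ) :
    ps t s ^ 2 = ps (2 * t) s + 2 * ((eps 2 s).map (fun x => x ^ t)).sum := by
  induction s using Multiset.induction_on with
  | empty => simp [ps, eps, Multiset.powersetCard_zero_right]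
  | cons a s ih =>
    have h1 : eps 2 (a ::ₘ s) = eps 2 s + s.map (fun x => a * x) := by
      simp only [eps]
      rw [Multiset.powersetCard_cons, Multiset.map_add, Multiset.powersetCard_one]
      simp [Multiset.map_map]
    have h2 : ps t (a ::ₘ s) = a ^ t + ps t s := by simp [ps]
    have h3 : ps (2 * t) (a ::ₘ s) = a ^ (2 * t) + ps (2 * t) s := by simp [ps]
    rw [h1, h2, h3, Multiset.map_add, Multiset.sum_add, Multiset.map_map]
    have h4 : (s.map ((fun x => x ^ t) ∘ fun x => a * x)).sum = a ^ t * ps t s := by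
      simp only [Function.comp_def, mul_pow, ps]
      rw [Multiset.sum_map_mul_left]
    rw [h4, add_sq, ih]
    ring

theorem ps_eq {s₁ s₂ : Multiset ℕ} (h1 : s₁.sum = s₂.sum) (h2 : eps 2 s₁ = eps 2 s₂) (k : ℕ) :
    ps (2 ^ k) s₁ = ps (2 ^ k) s₂ := by
  induction k with
  | zero => simpa [ps] using h1
  | succ k ih =>
    have e1 := sq_ps (2 ^ k) s₁
    have e2 := sq_ps (2 ^ k) s₂
    rw [h2, ih, e2] at e1
    rw [pow_succ, mul_comm]
    omega

theorem ps_le {s : Multiset ℕ} {b : ℕ} (h : ∀ x ∈ s, x ≤ b) (t : ℕ) :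
    ps t s ≤ Multiset.card s * b ^ t := by
  induction s using Multiset.induction_on with
  | empty => simp [ps]
  | cons a s ih =>
    have h1 := ih (fun x hx => h x (Multiset.mem_cons_of_mem hx))
    have h2 : ps t (a ::ₘ s) = a ^ t + ps t s := by simp [ps]
    have h3 : a ^ t ≤ b ^ t := Nat.pow_le_pow_left (h a (Multiset.mem_cons_self a s)) t
    rw [h2, Multiset.card_cons]
    linarith [add_mul (Multiset.card s) 1 (b ^ t)]

theorem le_ps {s : Multiset ℕ} {a : ℕ} (h : a ∈ s) (t : ℕ) : a ^ t ≤ ps t s := by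
  obtain ⟨u, rfl⟩ := Multiset.exists_cons_of_mem h
  simp [ps]

/-- `(a+1)^(2^k)` eventually beats `C a^(2^k)`. -/
theorem beat (a C : ℕ) : ∃ k : ℕ, C * a ^ (2 ^ k) < (a + 1) ^ (2 ^ k) := by
  rcases Nat.eq_zero_or_pos a with h | h
  · subst h; exact ⟨0, by simp⟩
  · have ha : (0 : ℝ) < a := by exact_mod_cast h
    have h1 : (1 : ℝ) < (a + 1) / a := by rw [lt_div_iff₀ ha]; linarith
    obtain ⟨m, hm⟩ := pow_unbounded_of_one_lt (C : ℝ) h1
    refine ⟨m, ?_⟩
    have h2 : ((a + 1 : ℝ) / a) ^ m ≤ ((a + 1 : ℝ) / a) ^ (2 ^ m) :=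
      pow_le_pow_right₀ h1.le (Nat.lt_two_pow_self).le
    have h3 : (C : ℝ) < ((a + 1 : ℝ) / a) ^ (2 ^ m) := lt_of_lt_of_le hm h2
    rw [div_pow, lt_div_iff₀ (by positivity)] at h3
    exact_mod_cast h3

theorem not_mem_contra {s₁ s₂ : Multiset ℕ} {a : ℕ} (ha : a ∈ s₁) (ha0 : 0 < a)
    (hs : ∀ x ∈ s₂, x < a) (h : ∀ k, ps (2 ^ k) s₁ = ps (2 ^ k) s₂) : False := by
  obtain ⟨a, rfl⟩ := Nat.exists_eq_add_of_le' ha0
  obtain ⟨k, hk⟩ := beat a (Multiset.card s₂)
  have h1 := le_ps ha (2 ^ k)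
  have h2 := ps_le (s := s₂) (b := a) (fun x hx => Nat.lt_succ_iff.1 (hs x hx)) (2 ^ k)
  rw [h k] at h1
  exact absurd (lt_of_lt_of_le hk (h1.trans h2)) (lt_irrefl _)

/-- The power sums with exponents `2^k` determine a multiset of positive integers. -/
theorem eq_of_ps : ∀ (N : ℕ) (s₁ s₂ : Multiset ℕ), Multiset.card s₁ + Multiset.card s₂ ≤ N →
    (∀ x ∈ s₁, 0 < x) → (∀ x ∈ s₂, 0 < x) → (∀ k, ps (2 ^ k) s₁ = ps (2 ^ k) s₂) → s₁ = s₂ := by
  intro N
  induction N with
  | zero =>
    intro s₁ s₂ h _ _ _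
    have h1 : Multiset.card s₁ = 0 := by omega
    have h2 : Multiset.card s₂ = 0 := by omega
    rw [Multiset.card_eq_zero] at h1 h2
    rw [h1, h2]
  | succ N ih =>
    intro s₁ s₂ hN p1 p2 h
    by_cases h0 : s₁ + s₂ = 0
    · have h01 : Multiset.card (s₁ + s₂) = 0 := by rw [h0]; rfl
      rw [Multiset.card_add] at h01
      have h1 : Multiset.card s₁ = 0 := by omega
      have h2 : Multiset.card s₂ = 0 := by omega
      rw [Multiset.card_eq_zero] at h1 h2
      rw [h1, h2]
    · have hne : ((s₁ + s₂).toFinset).Nonempty := by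
        rw [Finset.nonempty_iff_ne_empty, Ne, Multiset.toFinset_eq_empty]
        exact h0
      obtain ⟨a, ha, hmax⟩ := Finset.exists_max_image (s₁ + s₂).toFinset id hne
      rw [Multiset.mem_toFinset, Multiset.mem_add] at ha
      have hmax1 : ∀ x ∈ s₁, x ≤ a := fun x hx =>
        hmax x (by rw [Multiset.mem_toFinset, Multiset.mem_add]; exact Or.inl hx)
      have hmax2 : ∀ x ∈ s₂, x ≤ a := fun x hx =>
        hmax x (by rw [Multiset.mem_toFinset, Multiset.mem_add]; exact Or.inr hx)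
      have hm1 : a ∈ s₁ := by
        by_contra hn
        have ha2 : a ∈ s₂ := ha.resolve_left hn
        refine not_mem_contra ha2 (p2 a ha2) (s₂ := s₁) ?_ (fun k => (h k).symm)
        intro x hx
        exact lt_of_le_of_ne (hmax1 x hx) (fun e => hn (e ▸ hx))
      have hm2 : a ∈ s₂ := by
        by_contra hn
        refine not_mem_contra hm1 (p1 a hm1) (s₂ := s₂) ?_ h
        intro x hx
        exact lt_of_le_of_ne (hmax2 x hx) (fun e => hn (e ▸ hx))
      obtain ⟨u₁, rfl⟩ := Multiset.exists_cons_of_mem hm1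
      obtain ⟨u₂, rfl⟩ := Multiset.exists_cons_of_mem hm2
      have : u₁ = u₂ := by
        refine ih u₁ u₂ ?_ (fun x hx => p1 x (Multiset.mem_cons_of_mem hx))
          (fun x hx => p2 x (Multiset.mem_cons_of_mem hx)) ?_
        · simp only [Multiset.card_cons] at hN; omega
        · intro k
          have := h k
          simpa [ps] using this
      rw [this]

/-- `ε_2` is injective on the partitions of `n`. -/
theorem eps_two_inj {n : ℕ} (l l' : n.Partition) (h : eps 2 l.parts = eps 2 l'.parts) :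
    l = l' := by
  apply Nat.Partition.ext
  exact eq_of_ps _ l.parts l'.parts le_rfl (fun x hx => l.parts_pos hx)
    (fun x hx => l'.parts_pos hx) (ps_eq (by rw [l.parts_sum, l'.parts_sum]) h)

theorem mem_eps_two {s : Multiset ℕ} {x : ℕ} :
    x ∈ eps 2 s ↔ ∃ a b, a ::ₘ b ::ₘ 0 ≤ s ∧ x = a * b := by
  simp only [eps, Multiset.mem_map, Multiset.mem_powersetCard]
  constructor
  · rintro ⟨u, ⟨hu, hc⟩, rfl⟩
    obtain ⟨a, b, rfl⟩ := Multiset.card_eq_two.1 hc
    exact ⟨a, b, hu, by simp⟩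
  · rintro ⟨a, b, hu, rfl⟩
    exact ⟨_, ⟨hu, by simp⟩, by simp⟩

/-- For a prime `p` and length at least two, `ε_2(λ)` is `p`-regular iff `λ` is. -/
theorem regular_iff {p : ℕ} (hp : p.Prime) {s : Multiset ℕ} (hs : 2 ≤ Multiset.card s) :
    (∀ x ∈ eps 2 s, ¬ p ∣ x) ↔ ∀ x ∈ s, ¬ p ∣ x := by
  constructor
  · intro h x hx hpx
    obtain ⟨u, rfl⟩ := Multiset.exists_cons_of_mem hx
    have hu : 0 < Multiset.card u := by
      rw [Multiset.card_cons] at hs; omega
    obtain ⟨y, hy⟩ := Multiset.card_pos_iff_exists_mem.1 hu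
    obtain ⟨w, rfl⟩ := Multiset.exists_cons_of_mem hy
    refine h (x * y) ?_ (Dvd.dvd.mul_right hpx y)
    rw [mem_eps_two]
    refine ⟨x, y, ?_, rfl⟩
    rw [Multiset.cons_le_cons_iff, Multiset.cons_le_cons_iff]
    exact Multiset.zero_le w
  · intro h x hx hpx
    obtain ⟨a, b, hab, rfl⟩ := mem_eps_two.1 hx
    rcases (hp.dvd_mul).1 hpx with h1 | h1
    · exact h a (Multiset.mem_of_le hab (by simp)) h1
    · exact h b (Multiset.mem_of_le hab (by simp)) h1

theorem eps_one (s : Multiset ℕ) : eps 1 s = s := by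
  simp [eps, Multiset.powersetCard_one, Multiset.map_map]

/-- The regular partitions of length at least `k`. -/
def reg (p k n : ℕ) : Finset n.Partition :=
  Finset.univ.filter (fun l => k ≤ Multiset.card l.parts ∧ ∀ x ∈ l.parts, ¬ p ∣ x)

theorem r_one (p n : ℕ) : r p 1 n = (reg p 1 n).card := by
  rw [r, IP, Finset.filter_image, Finset.card_image_of_injOn]
  · rw [reg, Finset.filter_filter]
    simp only [eps_one]
  · intro l _ l' _ h
    simp only [eps_one] at h
    exact Nat.Partition.ext h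

theorem r_two {p : ℕ} (hp : p.Prime) (n : ℕ) : r p 2 n = (reg p 2 n).card := by
  rw [r, IP, Finset.filter_image, Finset.card_image_of_injOn]
  · rw [reg, Finset.filter_filter]
    congr 1
    apply Finset.filter_congr
    intro l _
    constructor
    · rintro ⟨h1, h2⟩; exact ⟨h1, (regular_iff hp h1).1 h2⟩
    · rintro ⟨h1, h2⟩; exact ⟨h1, (regular_iff hp h1).2 h2⟩
  · intro l _ l' _ h
    exact eps_two_inj l l' h

theorem reg_split (p n : ℕ) : (reg p 1 n).card = (reg p 2 n).card +
    ((Finset.univ : Finset n.Partition).filter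
      (fun l => Multiset.card l.parts = 1 ∧ ∀ x ∈ l.parts, ¬ p ∣ x)).card := by
  rw [← Finset.card_union_of_disjoint]
  · congr 1
    ext l
    simp only [reg, Finset.mem_filter, Finset.mem_union, Finset.mem_univ, true_and]
    constructor
    · rintro ⟨h1, h2⟩
      rcases Nat.lt_or_ge (Multiset.card l.parts) 2 with h3 | h3
      · right; exact ⟨by omega, h2⟩
      · left; exact ⟨h3, h2⟩
    · rintro (⟨h1, h2⟩ | ⟨h1, h2⟩)
      · exact ⟨by omega, h2⟩
      · exact ⟨by omega, h2⟩
  · rw [Finset.disjoint_left]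
    intro l h1 h2
    simp only [reg, Finset.mem_filter, Finset.mem_univ, true_and] at h1 h2
    omega

theorem single_parts {n : ℕ} (l : n.Partition) (h : Multiset.card l.parts = 1) :
    l.parts = {n} := by
  obtain ⟨a, ha⟩ := Multiset.card_eq_one.1 h
  have := l.parts_sum
  rw [ha, Multiset.sum_singleton] at this
  rw [ha, this]

theorem single_card (p n : ℕ) : ((Finset.univ : Finset n.Partition).filter
      (fun l => Multiset.card l.parts = 1 ∧ ∀ x ∈ l.parts, ¬ p ∣ x)).card =
        if p ∣ n then 0 else 1 := by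
  split_ifs with h
  · rw [Finset.card_eq_zero, Finset.filter_eq_empty_iff]
    rintro l _ ⟨h1, h2⟩
    have := single_parts l h1
    exact h2 n (by rw [this]; simp) h
  · have hn : n ≠ 0 := fun e => h (e ▸ dvd_zero p)
    rw [Finset.card_eq_one]
    refine ⟨Nat.Partition.indiscrete n, ?_⟩
    ext l
    simp only [Finset.mem_filter, Finset.mem_univ, true_and, Finset.mem_singleton]
    constructor
    · rintro ⟨h1, _⟩
      apply Nat.Partition.ext
      rw [single_parts l h1, Nat.Partition.indiscrete_parts hn]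
    · rintro rfl
      rw [Nat.Partition.indiscrete_parts hn]
      simp [h]

/-- **Full positive answer to Q1.** -/
theorem result (p n : ℕ) (hp : p.Prime) :
    (r p 1 n : ℤ) - (r p 2 n : ℤ) = if p ∣ n then 0 else 1 := by
  rw [r_one, r_two hp, reg_split, single_card]
  split_ifs <;> simp

end Pool.Agent.Results.MP_e3b57e_co.RegularParts
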